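import Pool.Agent.CW.A
import Pool.Agent.CW.BLOCK
import Pool.Agent.CW.RM
import Pool.Agent.CW.POISSONC
import Pool.Agent.CW.POT
import Pool.Agent.CW.ORTH
import Pool.Agent.CW.RMW
import Pool.Agent.CW.EMOM
import Pool.Agent.CW.LB
import Pool.Agent.CW.LAW
import Pool.Agent.CW.QV
import Pool.Agent.CW.HITW
import Pool.Agent.CW.ZOW
import Pool.Agent.CW.BIG

/-!
The growth and the moments of the Riemann zeta function and the Cauchy random walk.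
-/

set_option autoImplicit false

open Complex MeasureTheory ProbabilityTheory

namespace Pool.Agent.Results.MP_4e5e8a_nt.CauchyWalk

/-- `X 0, X 1, ...` are independent standard Cauchy random variables on `(Ω, P)`. -/
def CauchySteps {Ω : Type} [MeasurableSpace Ω] (P : Measure Ω) (X : ℕ → Ω → ℝ) : Prop :=
  (∀ i, Measurable (X i)) ∧ iIndepFun X P ∧ ∀ i, P.map (X i) = cauchyMeasure 0 1

/-- The value `ζ(1/2 + i S_n)` at time `n` of the random walk `S_n = X 0 + ... + X (n - 1)`. -/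
noncomputable def Z {Ω : Type} (X : ℕ → Ω → ℝ) (n : ℕ) (ω : Ω) : ℂ :=
  riemannZeta (1 / 2 + ((∑ i ∈ Finset.range n, X i ω : ℝ) : ℂ) * I)

/-- `|z n| = O(n ^ (A + ε))` for every `ε > 0` -/
def Growth (A : ℝ) (z : ℕ → ℂ) : Prop :=
  ∀ ε : ℝ, 0 < ε → ∃ C : ℝ, ∀ n : ℕ, 1 ≤ n → ‖z n‖ ≤ C * (n : ℝ) ^ (A + ε)

/-- `z 1 ^ k + ... + z N ^ k = N + O(N ^ B)` -/
def Law (k : ℕ) (B : ℝ) (z : ℕ → ℂ) : Prop :=
  ∃ C : ℝ, ∀ N : ℕ, 1 ≤ N → ‖(∑ n ∈ Finset.Icc 1 N, z n ^ k) - N‖ ≤ C * (N : ℝ) ^ B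

lemma Z_eq {Ω : Type} (X : ℕ → Ω → ℝ) (n : ℕ) (ω : Ω) :
    Z X n ω = Pool.Agent.CW.zl (Pool.Agent.CW.walk X n ω) := rfl

lemma law_iff {Ω : Type} (X : ℕ → Ω → ℝ) (ω : Ω) (k : ℕ) (B : ℝ) :
    Law k B (fun n => Z X n ω) ↔ ∃ C : ℝ, ∀ N : ℕ, 1 ≤ N →
      ‖∑ n ∈ Finset.Icc 1 N, (Pool.Agent.CW.zl (Pool.Agent.CW.walk X n ω) ^ k - 1)‖ ≤
        C * (N : ℝ) ^ B := by
  unfold Law
  have : ∀ N : ℕ, (∑ n ∈ Finset.Icc 1 N, Z X n ω ^ k) - N =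
      ∑ n ∈ Finset.Icc 1 N, (Pool.Agent.CW.zl (Pool.Agent.CW.walk X n ω) ^ k - 1) := by
    intro N
    rw [Finset.sum_sub_distrib, Finset.sum_const, Nat.card_Icc, Nat.add_sub_cancel,
      nsmul_eq_mul, mul_one]
    rfl
  simp only [this]

/-- Sequences of independent standard Cauchy variables exist. -/
theorem exists_cauchySteps : ∃ (Ω : Type) (_ : MeasurableSpace Ω) (P : Measure Ω)
    (_ : IsProbabilityMeasure P) (X : ℕ → Ω → ℝ), CauchySteps P X := by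
  obtain ⟨Ω, _, P, X, h1, h2, h3, h4⟩ := exists_iid ℕ (cauchyMeasure 0 1)
  exact ⟨Ω, _, P, h4, X, h1, h3, fun i => (h2 i).map_eq⟩

section

variable {Ω : Type} [MeasurableSpace Ω] {P : Measure Ω} [IsProbabilityMeasure P]
  {X : ℕ → Ω → ℝ}

lemma ne_zero_of_ae {Q : Ω → Prop} (h : ∀ᵐ ω ∂P, Q ω) : P {ω | Q ω} ≠ 0 := by
  intro h0
  have h1 : ∀ᵐ ω ∂P, ¬ Q ω := by
    rw [ae_iff]
    simpa using h0
  obtain ⟨ω, hω⟩ := (h.and h1).exists
  exact hω.2 hω.1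

omit [IsProbabilityMeasure P] in
lemma eq_zero_of_ae {Q : Ω → Prop} (h : ∀ᵐ ω ∂P, ¬ Q ω) : P {ω | Q ω} = 0 := by
  rw [ae_iff] at h
  simpa using h

/-- The law for all powers under the Lindelöf hypothesis. -/
lemma law_of_lindelof (hX : Pool.Agent.CW.IsCauchySeq P X) (hL : Pool.Agent.CW.LineBound 0) :
    ∀ᵐ ω ∂P, ∀ (k : ℕ) (ε : ℝ), 0 < ε → Law k (1 / 2 + ε) (fun n => Z X n ω) := by
  rw [ae_all_iff]
  intro k
  obtain ⟨h1, h2⟩ := Pool.Agent.CW.p_BLOCK hL P X hX k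
  have hmeas : ∀ n, Measurable
      (fun ω => Pool.Agent.CW.zl (Pool.Agent.CW.walk X n ω) ^ k - 1) := fun n =>
    ((Pool.Agent.CW.BLOCK_.cont_zl.pow k).sub continuous_const).measurable.comp
      (Pool.Agent.CW.measurable_walk hX n)
  have h3 := Pool.Agent.CW.p_RM P
    (fun n ω => Pool.Agent.CW.zl (Pool.Agent.CW.walk X n ω) ^ k - 1) hmeas h1 h2
  filter_upwards [h3] with ω hω
  intro ε hε
  rw [law_iff]
  exact hω ε hε

/-- If the Lindelöf hypothesis fails, the law fails for all large powers, almost surely. -/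
lemma not_law (hX : Pool.Agent.CW.IsCauchySeq P X) (hL : ¬ Pool.Agent.CW.LineBound 0) (B : ℝ) :
    ∃ K : ℕ, ∀ k : ℕ, K ≤ k → ∀ᵐ ω ∂P, ¬ Law k B (fun n => Z X n ω) := by
  obtain ⟨B', hB', h⟩ := (Pool.Agent.CW.p_A P X hX 0 le_rfl).2 hL
  obtain ⟨K, hK⟩ := exists_nat_gt (|B| / B')
  refine ⟨K + 1, fun k hk => ?_⟩
  filter_upwards [h] with ω hω hlaw
  rw [law_iff] at hlaw
  obtain ⟨C₀, hC₀⟩ := hlaw
  have hk1 : 1 ≤ k := by omega
  have hkB : |B| ≤ k * B' := by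
    have h1 : (K : ℝ) ≤ k := by exact_mod_cast (by omega : K ≤ k)
    rw [div_lt_iff₀ hB'] at hK
    nlinarith
  obtain ⟨C, hC⟩ : ∃ C : ℝ, C = 1 + 2 * |C₀| := ⟨_, rfl⟩
  have hC1 : 1 ≤ C := by
    rw [hC]
    linarith [abs_nonneg C₀]
  obtain ⟨n, hn, hnC⟩ := hω C
  have hn1 : (1 : ℝ) ≤ n := by exact_mod_cast hn
  -- the bound for partial sums, also at time `0`
  have hS : ∀ N : ℕ, N ≤ n →
      ‖∑ j ∈ Finset.Icc 1 N, (Pool.Agent.CW.zl (Pool.Agent.CW.walk X j ω) ^ k - 1)‖ ≤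
        |C₀| * (n : ℝ) ^ |B| := by
    intro N hN
    rcases Nat.eq_zero_or_pos N with h0 | h0
    · subst h0
      simp only [Finset.Icc_eq_empty_of_lt Nat.zero_lt_one, Finset.sum_empty, norm_zero]
      positivity
    · have hN1 : (1 : ℝ) ≤ N := by exact_mod_cast h0
      have hNn : (N : ℝ) ≤ n := by exact_mod_cast hN
      calc _ ≤ C₀ * (N : ℝ) ^ B := hC₀ N h0
        _ ≤ |C₀| * (N : ℝ) ^ B := mul_le_mul_of_nonneg_right (le_abs_self _) (by positivity)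
        _ ≤ |C₀| * (N : ℝ) ^ |B| := mul_le_mul_of_nonneg_left
            (Real.rpow_le_rpow_of_exponent_le hN1 (le_abs_self B)) (abs_nonneg _)
        _ ≤ |C₀| * (n : ℝ) ^ |B| := mul_le_mul_of_nonneg_left
            (Real.rpow_le_rpow (by linarith) hNn (abs_nonneg B)) (abs_nonneg _)
  obtain ⟨N, rfl⟩ : ∃ N, n = N + 1 := ⟨n - 1, by omega⟩
  have h1 := hS N (by omega)
  have h2 := hS (N + 1) le_rfl
  rw [Finset.sum_Icc_succ_top (by omega)] at h2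
  obtain ⟨s, hs⟩ : ∃ s : ℂ, s =
    ∑ j ∈ Finset.Icc 1 N, (Pool.Agent.CW.zl (Pool.Agent.CW.walk X j ω) ^ k - 1) := ⟨_, rfl⟩
  obtain ⟨z, hz⟩ : ∃ z : ℂ, z = Pool.Agent.CW.zl (Pool.Agent.CW.walk X (N + 1) ω) := ⟨_, rfl⟩
  rw [← hs] at h1 h2
  rw [← hz] at h2 hnC
  obtain ⟨U, hU⟩ : ∃ U : ℝ, U = ((N + 1 : ℕ) : ℝ) ^ |B| := ⟨_, rfl⟩
  have hU1 : 1 ≤ U := by
    rw [hU]
    exact Real.one_le_rpow hn1 (abs_nonneg B)
  rw [← hU] at h1 h2
  have h3 : ‖z‖ ^ k ≤ C * U := by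
    have e1 : z ^ k = (s + (z ^ k - 1)) - s + 1 := by ring
    calc ‖z‖ ^ k = ‖(s + (z ^ k - 1)) - s + 1‖ := by rw [← norm_pow, ← e1]
      _ ≤ ‖(s + (z ^ k - 1)) - s‖ + ‖(1 : ℂ)‖ := norm_add_le _ _
      _ ≤ ‖s + (z ^ k - 1)‖ + ‖s‖ + ‖(1 : ℂ)‖ := by
          have := norm_sub_le (s + (z ^ k - 1)) s
          linarith
      _ ≤ C * U := by
          rw [norm_one, hC]
          nlinarith
  have h4 : C * U ≤ (C * ((N + 1 : ℕ) : ℝ) ^ B') ^ k := by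
    rw [mul_pow, ← Real.rpow_natCast (((N + 1 : ℕ) : ℝ) ^ B') k,
      ← Real.rpow_mul (by positivity), hU]
    have e1 : C ≤ C ^ k := le_self_pow₀ hC1 (by omega)
    have e2 : ((N + 1 : ℕ) : ℝ) ^ |B| ≤ ((N + 1 : ℕ) : ℝ) ^ (B' * k) :=
      Real.rpow_le_rpow_of_exponent_le hn1 (by linarith)
    exact mul_le_mul e1 e2 (by positivity) (by positivity)
  have h5 : (C * ((N + 1 : ℕ) : ℝ) ^ B') ^ k < ‖z‖ ^ k :=
    pow_lt_pow_left₀ hnC (by positivity) (by omega)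
  linarith

/-- The law for the `k`-th power bounds the size of the terms. -/
lemma growth_of_law {z : ℕ → ℂ} {k : ℕ} (hk : 1 ≤ k) {β : ℝ} (hβ : 0 ≤ β) (h : Law k β z) :
    ∃ C : ℝ, ∀ n : ℕ, 1 ≤ n → ‖z n‖ ≤ C * (n : ℝ) ^ (β / k) := by
  obtain ⟨C₀, hC₀⟩ := h
  have hk0 : (0 : ℝ) < k := by exact_mod_cast hk
  refine ⟨(1 + 2 * |C₀|) ^ (1 / (k : ℝ)), fun n hn => ?_⟩
  have hn1 : (1 : ℝ) ≤ n := by exact_mod_cast hn
  have hS : ∀ N : ℕ, N ≤ n →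
      ‖(∑ j ∈ Finset.Icc 1 N, z j ^ k) - N‖ ≤ |C₀| * (n : ℝ) ^ β := by
    intro N hN
    rcases Nat.eq_zero_or_pos N with h0 | h0
    · subst h0
      simp only [Finset.Icc_eq_empty_of_lt Nat.zero_lt_one, Finset.sum_empty, Nat.cast_zero,
        sub_zero, norm_zero]
      positivity
    · have hNn : (N : ℝ) ≤ n := by exact_mod_cast hN
      calc _ ≤ C₀ * (N : ℝ) ^ β := hC₀ N h0
        _ ≤ |C₀| * (N : ℝ) ^ β := mul_le_mul_of_nonneg_right (le_abs_self _) (by positivity)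
        _ ≤ |C₀| * (n : ℝ) ^ β := mul_le_mul_of_nonneg_left
            (Real.rpow_le_rpow (Nat.cast_nonneg N) hNn hβ) (abs_nonneg _)
  obtain ⟨N, rfl⟩ : ∃ N, n = N + 1 := ⟨n - 1, by omega⟩
  have h1 := hS N (by omega)
  have h2 := hS (N + 1) le_rfl
  rw [Finset.sum_Icc_succ_top (by omega)] at h2
  obtain ⟨s, hs⟩ : ∃ s : ℂ, s = ∑ j ∈ Finset.Icc 1 N, z j ^ k := ⟨_, rfl⟩
  have hc : ((N + 1 : ℕ) : ℂ) = (N : ℂ) + 1 := by push_cast; ring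
  rw [← hs] at h1 h2
  rw [hc] at h2
  obtain ⟨U, hU⟩ : ∃ U : ℝ, U = ((N + 1 : ℕ) : ℝ) ^ β := ⟨_, rfl⟩
  have hU1 : 1 ≤ U := by
    rw [hU]
    exact Real.one_le_rpow hn1 hβ
  rw [← hU] at h1 h2
  have h3 : ‖z (N + 1)‖ ^ k ≤ (1 + 2 * |C₀|) * U := by
    have e1 : z (N + 1) ^ k = (s + z (N + 1) ^ k - (N + 1)) - (s - N) + 1 := by ring
    calc ‖z (N + 1)‖ ^ k = ‖(s + z (N + 1) ^ k - (N + 1)) - (s - N) + 1‖ := by
          rw [← norm_pow, ← e1]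
      _ ≤ ‖(s + z (N + 1) ^ k - (N + 1)) - (s - N)‖ + ‖(1 : ℂ)‖ := norm_add_le _ _
      _ ≤ ‖s + z (N + 1) ^ k - (N + 1)‖ + ‖s - N‖ + ‖(1 : ℂ)‖ := by
          have := norm_sub_le (s + z (N + 1) ^ k - (N + 1)) (s - N)
          linarith
      _ ≤ (1 + 2 * |C₀|) * U := by
          rw [norm_one]
          nlinarith
  have h4 : ‖z (N + 1)‖ = (‖z (N + 1)‖ ^ k) ^ (1 / (k : ℝ)) := by
    rw [← Real.rpow_natCast ‖z (N + 1)‖ k, ← Real.rpow_mul (norm_nonneg _),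
      mul_one_div_cancel hk0.ne', Real.rpow_one]
  calc ‖z (N + 1)‖ = (‖z (N + 1)‖ ^ k) ^ (1 / (k : ℝ)) := h4
    _ ≤ ((1 + 2 * |C₀|) * U) ^ (1 / (k : ℝ)) :=
        Real.rpow_le_rpow (by positivity) h3 (by positivity)
    _ = (1 + 2 * |C₀|) ^ (1 / (k : ℝ)) * ((N + 1 : ℕ) : ℝ) ^ (β / k) := by
        rw [Real.mul_rpow (by positivity) (by linarith), hU, ← Real.rpow_mul (by positivity)]
        congr 2
        ring

/-- Moments give the law of the powers. -/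
lemma law_of_moment (hX : Pool.Agent.CW.IsCauchySeq P X) {k : ℕ} (hk : 1 ≤ k) {l : ℝ}
    (hl : 0 ≤ l) (hl2 : l < 1 / 2) (hM : Pool.Agent.CW.MomentBound k l) :
    ∀ᵐ ω ∂P, ∀ ε : ℝ, 0 < ε → Law k (1 / 2 + l + ε) (fun n => Z X n ω) := by
  have h := Pool.Agent.CW.p_LAW (Pool.Agent.CW.p_POT Pool.Agent.CW.p_POISSONC)
    Pool.Agent.CW.p_ORTH Pool.Agent.CW.p_RMW Pool.Agent.CW.p_EMOM Pool.Agent.CW.p_LB
    k l hk hl hl2 hM P X hX
  filter_upwards [h] with ω hω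
  intro ε hε
  rw [law_iff]
  exact hω ε hε

/-- The law of the powers gives the moments. -/
lemma moment_of_law (hX : Pool.Agent.CW.IsCauchySeq P X) {k : ℕ} (hk : 1 ≤ k) {l : ℝ}
    (hl : 0 ≤ l) (hl2 : l < 1 / 2) (hL : Pool.Agent.CW.LineBound ((1 / 2 + l) / k))
    (h : P {ω | ∀ ε : ℝ, 0 < ε → Law k (1 / 2 + l + ε) (fun n => Z X n ω)} ≠ 0) :
    Pool.Agent.CW.MomentBound k l := by
  by_contra hM
  obtain ⟨κ, hκ, hbig⟩ := Pool.Agent.CW.p_BIG Pool.Agent.CW.p_HITW Pool.Agent.CW.p_ZOW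
    k l hk hl hl2 hL hM
  have hb := hbig P X hX
  have hk0 : (0 : ℝ) < k := by exact_mod_cast hk
  obtain ⟨μ, hμ⟩ : ∃ μ : ℝ, μ = min κ (1 / 2 - l) := ⟨_, rfl⟩
  have hμ0 : 0 < μ := by
    rw [hμ]
    exact lt_min hκ (by linarith)
  have hμ1 : μ ≤ κ := by rw [hμ]; exact min_le_left _ _
  have hμ2 : μ ≤ 1 / 2 - l := by rw [hμ]; exact min_le_right _ _
  have hA0 : 0 ≤ (1 / 2 + l) / (k : ℝ) := by positivity
  have hkA : (k : ℝ) * ((1 / 2 + l) / k) < 1 / 2 + l + μ / 4 := by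
    rw [mul_div_cancel₀ _ hk0.ne']
    linarith
  have hqv := Pool.Agent.CW.p_QV (Pool.Agent.CW.p_POT Pool.Agent.CW.p_POISSONC)
    ((1 / 2 + l) / k) k (1 / 2 + l + μ / 4) (1 / 2 + l + μ / 2) hA0 hL hkA (by linarith)
    (by linarith) (by linarith) P X hX
  refine h (eq_zero_of_ae ?_)
  filter_upwards [hb, hqv] with ω h1 h2 h3
  have h4 := h3 (μ / 4) (by positivity)
  rw [law_iff] at h4
  obtain ⟨C, hC⟩ := h2 h4
  obtain ⟨N, hN, hN2⟩ := h1 |C|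
  have hN1 : (1 : ℝ) ≤ N := by exact_mod_cast hN
  have h5 := hC N hN
  have h6 : C * (N : ℝ) ^ (2 * (1 / 2 + l + μ / 2)) ≤ |C| * (N : ℝ) ^ (1 + 2 * l + κ) := by
    apply mul_le_mul (le_abs_self C) _ (by positivity) (abs_nonneg C)
    exact Real.rpow_le_rpow_of_exponent_le hN1 (by linarith)
  linarith

end

/-- **Growth and moments of the zeta function and the Cauchy random walk.**  Let
`S_n = X_0 + ... + X_(n-1)` with independent standard Cauchy variables `X_i`.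

(A) For every `A ≥ 0`, the bound `ζ(1/2 + it) = O(|t| ^ (A + ε))` for all `ε > 0` holds if and
only if almost surely `ζ(1/2 + i S_n) = O(n ^ (A + ε))` for all `ε > 0`, if and only if the latter
has positive probability.

(B) For every `k ≥ 1` and `0 ≤ l < 1/2`, the moment bound
`∫_0^T |ζ(1/2 + it)| ^ (2k) dt = O(T ^ (1 + 2l + ε))` for all `ε > 0` holds if and only if almost
surely `∑_(n ≤ N) ζ(1/2 + i S_n) ^ k = N + O(N ^ (1/2 + l + ε))` for all `ε > 0`, if and only if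
the latter has positive probability.

(C) The Lindelöf hypothesis holds if and only if almost surely, for all `k` and all `ε > 0`,
`∑_(n ≤ N) ζ(1/2 + i S_n) ^ k = N + O(N ^ (1/2 + ε))`, if and only if for some `B` and infinitely
many `k` the event `∑_(n ≤ N) ζ(1/2 + i S_n) ^ k = N + O(N ^ B)` has positive probability. -/
theorem result {Ω : Type} [MeasurableSpace Ω] (P : Measure Ω) [IsProbabilityMeasure P]
    (X : ℕ → Ω → ℝ) (hX : CauchySteps P X) :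
    (∀ A : ℝ, 0 ≤ A → List.TFAE
      [∀ ε : ℝ, 0 < ε → ∃ C : ℝ, ∀ t : ℝ,
          ‖riemannZeta (1 / 2 + t * I)‖ ≤ C * (1 + |t|) ^ (A + ε),
        ∀ᵐ ω ∂P, Growth A (fun n => Z X n ω),
        P {ω | Growth A (fun n => Z X n ω)} ≠ 0]) ∧
    (∀ (k : ℕ) (l : ℝ), 1 ≤ k → 0 ≤ l → l < 1 / 2 → List.TFAE
      [∀ ε : ℝ, 0 < ε → ∃ C : ℝ, ∀ T : ℝ, 1 ≤ T →
          ∫ t in (0 : ℝ)..T, ‖riemannZeta (1 / 2 + t * I)‖ ^ (2 * k) ≤ C * T ^ (1 + 2 * l + ε),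
        ∀ᵐ ω ∂P, ∀ ε : ℝ, 0 < ε → Law k (1 / 2 + l + ε) (fun n => Z X n ω),
        P {ω | ∀ ε : ℝ, 0 < ε → Law k (1 / 2 + l + ε) (fun n => Z X n ω)} ≠ 0]) ∧
    List.TFAE
      [∀ ε : ℝ, 0 < ε → ∃ C : ℝ, ∀ t : ℝ,
          ‖riemannZeta (1 / 2 + t * I)‖ ≤ C * (1 + |t|) ^ ε,
        ∀ᵐ ω ∂P, ∀ (k : ℕ) (ε : ℝ), 0 < ε → Law k (1 / 2 + ε) (fun n => Z X n ω),
        ∃ B : ℝ, ∀ K : ℕ, ∃ k : ℕ, K ≤ k ∧ P {ω | Law k B (fun n => Z X n ω)} ≠ 0] := by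
  have hX' : Pool.Agent.CW.IsCauchySeq P X := ⟨hX.1, hX.2.1, hX.2.2⟩
  have hA_of : ∀ A : ℝ, 0 ≤ A → P {ω | Growth A (fun n => Z X n ω)} ≠ 0 →
      Pool.Agent.CW.LineBound A := by
    intro A hA h
    by_contra hL
    obtain ⟨B, hB, hB2⟩ := (Pool.Agent.CW.p_A P X hX' A hA).2 hL
    refine h (eq_zero_of_ae ?_)
    filter_upwards [hB2] with ω hω hG
    obtain ⟨C, hC⟩ := hG (B - A) (by linarith)
    obtain ⟨n, hn, hn2⟩ := hω C
    have h1 := hC n hn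
    rw [add_sub_cancel] at h1
    exact absurd h1 (not_le.2 hn2)
  refine ⟨fun A hA => ?_, fun k l hk hl hl2 => ?_, ?_⟩
  · tfae_have 1 → 2 := fun h => (Pool.Agent.CW.p_A P X hX' A hA).1 h
    tfae_have 2 → 3 := fun h => ne_zero_of_ae h
    tfae_have 3 → 1 := fun h => hA_of A hA h
    tfae_finish
  · have hk0 : (0 : ℝ) < k := by exact_mod_cast hk
    tfae_have 1 → 2 := fun h => law_of_moment hX' hk hl hl2 h
    tfae_have 2 → 3 := fun h => ne_zero_of_ae h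
    tfae_have 3 → 1 := by
      intro h
      have hL : Pool.Agent.CW.LineBound ((1 / 2 + l) / k) := by
        apply hA_of _ (by positivity)
        intro h0
        refine h (measure_mono_null ?_ h0)
        intro ω hω ε hε
        have h1 := hω (k * ε) (by positivity)
        obtain ⟨C, hC⟩ := growth_of_law hk (by positivity) h1
        refine ⟨C, fun n hn => ?_⟩
        have h2 := hC n hn
        have h3 : (1 / 2 + l + k * ε) / (k : ℝ) = (1 / 2 + l) / k + ε := by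
          field_simp
        rwa [h3] at h2
      exact moment_of_law hX' hk hl hl2 hL h
    tfae_finish
  · have hLH : (∀ ε : ℝ, 0 < ε → ∃ C : ℝ, ∀ t : ℝ,
        ‖riemannZeta (1 / 2 + t * I)‖ ≤ C * (1 + |t|) ^ ε) ↔ Pool.Agent.CW.LineBound 0 := by
      unfold Pool.Agent.CW.LineBound
      simp only [zero_add]
      rfl
    tfae_have 1 → 2 := fun h => law_of_lindelof hX' (hLH.1 h)
    tfae_have 2 → 3 := by
      intro h
      refine ⟨1 / 2 + 1, fun K => ⟨K, le_rfl, ne_zero_of_ae ?_⟩⟩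
      filter_upwards [h] with ω hω
      exact hω K 1 one_pos
    tfae_have 3 → 1 := by
      rintro ⟨B, h⟩
      rw [hLH]
      by_contra hL
      obtain ⟨K, hK⟩ := not_law hX' hL B
      obtain ⟨k, hk, hk2⟩ := h K
      exact hk2 (eq_zero_of_ae (hK k hk))
    tfae_finish

end Pool.Agent.Results.MP_4e5e8a_nt.CauchyWalk
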