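import Pool.Agent.HolMom.Exist

/-!
Holomorphic mean values of zeta on the critical line and the Lindelöf hypothesis.
-/

set_option autoImplicit false

open Complex MeasureTheory Polynomial Filter Topology

namespace Pool.Agent.Results.MP_4e5e8a_nt.HolomorphicMoments

open Pool.Agent.HolMom Pool.Agent.Lib.ZetaLine Pool.Agent.Lib.ZetaConv

/-- The error term `∫_0^T Φ(ζ(1/2 + it)) dt - Φ(1) T`. -/
noncomputable def Err (Φ : ℂ → ℂ) (T : ℝ) : ℂ :=
  (∫ t in (0 : ℝ)..T, Φ (riemannZeta (1 / 2 + t * I))) - T * Φ 1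

/-- Entire functions with `|Φ(z)| ≤ K exp(√|z|)`. -/
def Slow (Φ : ℂ → ℂ) : Prop :=
  Differentiable ℂ Φ ∧ ∃ K : ℝ, ∀ z : ℂ, ‖Φ z‖ ≤ K * Real.exp (Real.sqrt ‖z‖)

/-- Entire functions with `|Φ(z)| ≤ K exp(exp(√|z|))`, for example those of finite order. -/
def Tame (Φ : ℂ → ℂ) : Prop :=
  Differentiable ℂ Φ ∧ ∃ K : ℝ, ∀ z : ℂ, ‖Φ z‖ ≤ K * Real.exp (Real.exp (Real.sqrt ‖z‖))

/-- Functions which are not polynomials. -/
def Transc (Φ : ℂ → ℂ) : Prop := ∀ P : ℂ[X], ∃ z : ℂ, Φ z ≠ P.eval z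

lemma Slow.tame {Φ : ℂ → ℂ} (h : Slow Φ) : Tame Φ := by
  obtain ⟨hΦ, K, hK⟩ := h
  refine ⟨hΦ, |K|, fun z => ?_⟩
  have h1 : Real.exp (Real.sqrt ‖z‖) ≤ Real.exp (Real.exp (Real.sqrt ‖z‖)) := by
    apply Real.exp_le_exp.2
    have := Real.add_one_le_exp (Real.sqrt ‖z‖)
    linarith
  calc ‖Φ z‖ ≤ K * Real.exp (Real.sqrt ‖z‖) := hK z
    _ ≤ |K| * Real.exp (Real.sqrt ‖z‖) :=
        mul_le_mul_of_nonneg_right (le_abs_self K) (Real.exp_pos _).le
    _ ≤ _ := mul_le_mul_of_nonneg_left h1 (abs_nonneg K)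

lemma err_eq {Φ : ℂ → ℂ} (hΦ : Differentiable ℂ Φ) (T : ℝ) :
    Err Φ T = ∫ t in (0 : ℝ)..T, FE Φ (1 / 2 + t * I) := by
  have h1 := FE_line_cont hΦ
  have h2 : (fun t : ℝ => Φ (riemannZeta (1 / 2 + t * I))) =
      fun t : ℝ => FE Φ (1 / 2 + t * I) + Φ 1 := by
    funext t
    unfold FE
    ring
  unfold Err
  rw [h2, intervalIntegral.integral_add (h1.intervalIntegrable _ _)
    intervalIntegrable_const, intervalIntegral.integral_const]
  rw [sub_zero, Complex.real_smul]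
  ring

/-- The growth exponent of zeta on the critical line is at most `A`. -/
def Growth (A : ℝ) : Prop := ∀ ε : ℝ, 0 < ε → ∃ C : ℝ, ∀ t : ℝ,
  ‖riemannZeta (1 / 2 + t * I)‖ ≤ C * (1 + |t|) ^ (A + ε)

lemma part1 {A : ℝ} (hA : 0 ≤ A) (h : Growth A) (P : ℂ[X]) {ε : ℝ} (hε : 0 < ε) :
    ∃ C : ℝ, ∀ T : ℝ, 0 ≤ T →
      ‖Err (fun z => P.eval z) T‖ ≤ C * (1 + T) ^ (P.natDegree * A + ε) := by
  set η : ℝ := ε / (P.natDegree + 1) with hη
  have hη0 : 0 < η := by positivity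
  obtain ⟨C, hC⟩ := h η hη0
  have hAη : 0 ≤ A + η := by linarith
  have hline : LineB (A + η) := by
    refine ⟨|C| * 2 ^ (A + η) + 1, 1, ?_, le_rfl, ?_⟩
    · have : 0 ≤ |C| * 2 ^ (A + η) := by positivity
      linarith
    intro t ht
    have h1 := hC t
    have e0 : (((1 / 2 : ℝ) : ℂ) + t * I) = 1 / 2 + t * I := by norm_num
    rw [e0]
    have e1 : (1 + |t|) ^ (A + η) ≤ 2 ^ (A + η) * t ^ (A + η) := by
      rw [← Real.mul_rpow (by norm_num) (by linarith), abs_of_nonneg (by linarith)]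
      exact Real.rpow_le_rpow (by linarith) (by linarith) hAη
    have e2 : C * (1 + |t|) ^ (A + η) ≤ |C| * (1 + |t|) ^ (A + η) :=
      mul_le_mul_of_nonneg_right (le_abs_self C) (by positivity)
    have e3 : 0 ≤ t ^ (A + η) := Real.rpow_nonneg (by linarith) _
    have e4 := mul_le_mul_of_nonneg_left e1 (abs_nonneg C)
    nlinarith
  obtain ⟨D, hD⟩ := moment_of_growth P hAη hline
  refine ⟨|D|, fun T hT => ?_⟩
  rw [err_eq P.differentiable]
  refine (hD T hT).trans ?_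
  have e1 : (P.natDegree : ℝ) * (A + η) ≤ P.natDegree * A + ε := by
    have : (P.natDegree : ℝ) * η ≤ ε := by
      rw [hη, mul_div_assoc', div_le_iff₀ (by positivity)]
      nlinarith
    linarith
  have e2 : (1 + T) ^ ((P.natDegree : ℝ) * (A + η)) ≤ (1 + T) ^ (P.natDegree * A + ε) :=
    Real.rpow_le_rpow_of_exponent_le (by linarith) e1
  have e3 : 0 ≤ (1 + T) ^ ((P.natDegree : ℝ) * (A + η)) := by positivity
  calc D * (1 + T) ^ ((P.natDegree : ℝ) * (A + η))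
      ≤ |D| * (1 + T) ^ ((P.natDegree : ℝ) * (A + η)) :=
        mul_le_mul_of_nonneg_right (le_abs_self D) e3
    _ ≤ _ := mul_le_mul_of_nonneg_left e2 (abs_nonneg D)

lemma part2 {A : ℝ} (hA : 0 ≤ A)
    (h : ∀ ε : ℝ, 0 < ε → ∃ (n : ℕ) (Φ : ℂ → ℂ) (ω : ℂ) (C : ℝ), 0 < n ∧ Slow Φ ∧
      (∀ P : ℂ[X], P.natDegree < n → ∃ z, Φ z ≠ P.eval z) ∧ ‖ω‖ = 1 ∧
      ∀ T : ℝ, 0 ≤ T → (ω * Err Φ T).re ≤ C * (1 + T) ^ (n * (A + ε))) : Growth A := by
  intro ε hε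
  obtain ⟨n, Φ, ω, C, hn, ⟨hΦ, K, hK⟩, hdeg, hω, hC⟩ := h (ε / 4) (by positivity)
  have hn0 : (0 : ℝ) < n := by exact_mod_cast hn
  have h1 := zeta_of_mean hΦ (K := K) hK (by omega : 1 ≤ n) hdeg hω
    (B := n * (A + ε / 4)) (C := C) (by positivity) (fun T hT => by
      rw [← err_eq hΦ]
      exact hC T hT) (c := A + ε / 2) (by positivity) (by nlinarith) (ε / 2) (by positivity)
  have h2 : A + ε / 2 + ε / 2 = A + ε := by ring
  rw [h2] at h1
  exact h1.line (by linarith)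

/-- An entire function whose value at zeta has a mean value on the critical line. -/
lemma part3 (h : Growth 0) : ∃ Φ : ℂ → ℂ, Slow Φ ∧ Transc Φ ∧ ∃ m : ℂ,
    Tendsto (fun T : ℝ => (∫ t in (0 : ℝ)..T, Φ (riemannZeta (1 / 2 + t * I))) / T)
      atTop (𝓝 m) := by
  have h1 : ∀ n : ℕ, ∃ D : ℝ, 1 ≤ D ∧ ∀ T : ℝ, 0 ≤ T →
      ‖∫ t in (0 : ℝ)..T, FE (fun z => z ^ n) (1 / 2 + t * I)‖ ≤
        D * (1 + T) ^ (1 / 2 : ℝ) := by
    intro n
    obtain ⟨C, hC⟩ := part1 le_rfl h (X ^ n) (ε := 1 / 2) (by norm_num)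
    refine ⟨1 + |C|, by linarith [abs_nonneg C], fun T hT => ?_⟩
    have e1 := hC T hT
    rw [err_eq (X ^ n : ℂ[X]).differentiable] at e1
    simp only [Polynomial.eval_pow, Polynomial.eval_X, mul_zero, zero_add] at e1
    refine e1.trans ?_
    gcongr
    linarith [le_abs_self C]
  choose D hD1 hD using h1
  refine ⟨ent D, ⟨ent_diff hD1, 1, ent_grow hD1⟩, ent_ne_poly hD1, ent D 1, ?_⟩
  obtain ⟨W, hW⟩ : ∃ W : ℝ, W = Real.cosh (Real.sqrt 1) := ⟨_, rfl⟩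
  have h2 : ∀ T : ℝ, 0 ≤ T → ‖Err (ent D) T‖ ≤ W * (1 + T) ^ (1 / 2 : ℝ) := by
    intro T hT
    rw [err_eq (ent_diff hD1), hW]
    exact ent_mean hD1 (b := fun T => (1 + T) ^ (1 / 2 : ℝ)) hD T hT
  have hW0 : 0 ≤ W := by
    rw [hW]
    exact (Real.cosh_pos _).le
  rw [tendsto_iff_norm_sub_tendsto_zero]
  have h3 : Tendsto (fun T : ℝ => W * 2 ^ (1 / 2 : ℝ) * T ^ (-(1 / 2) : ℝ)) atTop (𝓝 0) := by
    have := (tendsto_rpow_neg_atTop (show (0 : ℝ) < 1 / 2 by norm_num)).const_mul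
      (W * 2 ^ (1 / 2 : ℝ))
    rwa [mul_zero] at this
  refine squeeze_zero' (Eventually.of_forall fun T => norm_nonneg _) ?_ h3
  filter_upwards [eventually_ge_atTop (1 : ℝ)] with T hT
  have hT0 : 0 < T := by linarith
  have e1 : (∫ t in (0 : ℝ)..T, ent D (riemannZeta (1 / 2 + t * I))) / T - ent D 1 =
      Err (ent D) T / T := by
    have : (T : ℂ) ≠ 0 := by exact_mod_cast hT0.ne'
    unfold Err
    rw [eq_div_iff this, sub_mul, div_mul_cancel₀ _ this]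
    ring
  rw [e1, norm_div, Complex.norm_real, Real.norm_eq_abs, abs_of_pos hT0, div_le_iff₀ hT0]
  refine (h2 T hT0.le).trans ?_
  have e2 : (1 + T) ^ (1 / 2 : ℝ) ≤ 2 ^ (1 / 2 : ℝ) * T ^ (1 / 2 : ℝ) := by
    rw [← Real.mul_rpow (by norm_num) hT0.le]
    exact Real.rpow_le_rpow (by linarith) (by linarith) (by norm_num)
  have e3 : T ^ (-(1 / 2) : ℝ) * T = T ^ (1 / 2 : ℝ) := by
    nth_rewrite 2 [← Real.rpow_one T]
    rw [← Real.rpow_add hT0]
    norm_num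
  rw [mul_assoc, mul_assoc, e3]
  exact mul_le_mul_of_nonneg_left e2 hW0

/-- A mean value gives a two-sided linear bound. -/
lemma part4 {Φ : ℂ → ℂ} (hΦ : Differentiable ℂ Φ) {m : ℂ}
    (h : Tendsto (fun T : ℝ => (∫ t in (0 : ℝ)..T, Φ (riemannZeta (1 / 2 + t * I))) / T)
      atTop (𝓝 m)) : ∃ C : ℝ, ∀ T : ℝ, 0 ≤ T → ‖Err Φ T‖ ≤ C * (1 + T) := by
  have h1 : ∀ᶠ T : ℝ in atTop,
      ‖(∫ t in (0 : ℝ)..T, Φ (riemannZeta (1 / 2 + t * I))) / T‖ < ‖m‖ + 1 :=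
    h.norm.eventually_lt_const (by linarith)
  obtain ⟨T₀, hT₀⟩ := eventually_atTop.1 h1
  have hcont : Continuous fun T : ℝ => Err Φ T := by
    have h2 : (fun T : ℝ => Err Φ T) =
        fun T : ℝ => ∫ t in (0 : ℝ)..T, FE Φ (1 / 2 + t * I) := by
      funext T
      exact err_eq hΦ T
    rw [h2]
    exact intervalIntegral.continuous_primitive
      (fun a b => (FE_line_cont hΦ).intervalIntegrable a b) 0
  obtain ⟨D, hD⟩ := (isCompact_Icc (a := (0 : ℝ)) (b := max T₀ 1)).exists_bound_of_continuousOn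
    hcont.continuousOn
  refine ⟨|D| + ‖m‖ + 1 + ‖Φ 1‖, fun T hT => ?_⟩
  have hD0 := abs_nonneg D
  have hm0 := norm_nonneg m
  have hΦ0 := norm_nonneg (Φ 1)
  by_cases hcase : T ≤ max T₀ 1
  · have := (hD T ⟨hT, hcase⟩).trans (le_abs_self D)
    nlinarith
  · push Not at hcase
    have e1 : T₀ ≤ T := (le_max_left _ _).trans hcase.le
    have e2 : 1 ≤ T := (le_max_right _ _).trans hcase.le
    have hT0 : 0 < T := by linarith
    have e3 := (hT₀ T e1).le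
    rw [norm_div, Complex.norm_real, Real.norm_eq_abs, abs_of_pos hT0, div_le_iff₀ hT0] at e3
    unfold Err
    refine (norm_sub_le _ _).trans ?_
    rw [norm_mul, Complex.norm_real, Real.norm_eq_abs, abs_of_pos hT0]
    nlinarith

/-- A polynomial bound for the integral of `Φ(ζ)` along the critical line. -/
lemma part5 {Φ : ℂ → ℂ} (hΦ : Tame Φ) (hP : Transc Φ) {B C : ℝ}
    (h : ∀ T : ℝ, 0 ≤ T → ‖∫ t in (0 : ℝ)..T, Φ (riemannZeta (1 / 2 + t * I))‖ ≤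
      C * (1 + T) ^ B) : Growth 0 := by
  obtain ⟨hd, K, hK⟩ := hΦ
  intro ε hε
  obtain ⟨n, hn⟩ := exists_nat_gt (max B 1 / (ε / 2))
  rw [div_lt_iff₀ (by positivity)] at hn
  have hB1 : 1 ≤ max B 1 := le_max_right _ _
  have hn0 : 1 ≤ n := by
    rcases Nat.eq_zero_or_pos n with h0 | h0
    · rw [h0] at hn
      simp at hn
      linarith [hn.2]
    · exact h0
  have h1 := zeta_of_mean2 hd (K := K) hK hn0 (fun P _ => hP P) (B := max B 1)
    (C := |C| + ‖Φ 1‖) (by linarith) (fun T hT => by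
      rw [← err_eq hd]
      unfold Err
      refine (norm_sub_le _ _).trans ?_
      rw [norm_mul, Complex.norm_real, Real.norm_eq_abs, abs_of_nonneg hT]
      have e1 : (1 + T) ^ B ≤ (1 + T) ^ (max B 1) :=
        Real.rpow_le_rpow_of_exponent_le (by linarith) (le_max_left _ _)
      have e2 : (1 + T) ≤ (1 + T) ^ (max B 1) := by
        nth_rewrite 1 [← Real.rpow_one (1 + T)]
        exact Real.rpow_le_rpow_of_exponent_le (by linarith) hB1
      have e3 : 0 ≤ (1 + T) ^ B := Real.rpow_nonneg (by linarith) B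
      have e4 : C * (1 + T) ^ B ≤ |C| * (1 + T) ^ (max B 1) :=
        (mul_le_mul_of_nonneg_right (le_abs_self C) e3).trans
          (mul_le_mul_of_nonneg_left e1 (abs_nonneg C))
      have e5 : T * ‖Φ 1‖ ≤ (1 + T) ^ (max B 1) * ‖Φ 1‖ :=
        mul_le_mul_of_nonneg_right (by linarith) (norm_nonneg _)
      have := h T hT
      linarith) (c := ε / 2) (by positivity) hn (ε / 2) (by positivity)
  have h2 : ε / 2 + ε / 2 = 0 + ε := by ring
  rw [h2] at h1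
  exact h1.line (by linarith)

/-- **Holomorphic mean values and the Lindelöf hypothesis.** -/
theorem result :
    (∀ A : ℝ, 0 ≤ A → List.TFAE
      [∀ ε : ℝ, 0 < ε → ∃ C : ℝ, ∀ t : ℝ,
          ‖riemannZeta (1 / 2 + t * I)‖ ≤ C * (1 + |t|) ^ (A + ε),
        ∀ P : ℂ[X], ∀ ε : ℝ, 0 < ε → ∃ C : ℝ, ∀ T : ℝ, 0 ≤ T →
          ‖Err (fun z => P.eval z) T‖ ≤ C * (1 + T) ^ (P.natDegree * A + ε),
        ∀ ε : ℝ, 0 < ε → ∃ (n : ℕ) (Φ : ℂ → ℂ) (ω : ℂ) (C : ℝ), 0 < n ∧ Slow Φ ∧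
          (∀ P : ℂ[X], P.natDegree < n → ∃ z, Φ z ≠ P.eval z) ∧ ‖ω‖ = 1 ∧
          ∀ T : ℝ, 0 ≤ T → (ω * Err Φ T).re ≤ C * (1 + T) ^ (n * (A + ε))]) ∧
    List.TFAE
      [∀ ε : ℝ, 0 < ε → ∃ C : ℝ, ∀ t : ℝ,
          ‖riemannZeta (1 / 2 + t * I)‖ ≤ C * (1 + |t|) ^ ε,
        ∃ Φ : ℂ → ℂ, Slow Φ ∧ Transc Φ ∧ ∃ m : ℂ,
          Tendsto (fun T : ℝ => (∫ t in (0 : ℝ)..T, Φ (riemannZeta (1 / 2 + t * I))) / T)
            atTop (𝓝 m),
        ∃ Φ : ℂ → ℂ, Tame Φ ∧ Transc Φ ∧ ∃ B C : ℝ, ∀ T : ℝ, 0 ≤ T →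
          ‖∫ t in (0 : ℝ)..T, Φ (riemannZeta (1 / 2 + t * I))‖ ≤ C * (1 + T) ^ B] := by
  refine ⟨fun A hA => ?_, ?_⟩
  · tfae_have 1 → 2 := fun h P ε hε => part1 hA h P hε
    tfae_have 2 → 3 := by
      intro h ε hε
      obtain ⟨C, hC⟩ := h X ε hε
      obtain ⟨K, hK⟩ := poly_grow X
      refine ⟨1, fun z => (X : ℂ[X]).eval z, 1, C, one_pos, ⟨Polynomial.differentiable _, K, hK⟩,
        ?_, norm_one, fun T hT => ?_⟩
      · intro P hP
        have hP0 : P.natDegree = 0 := by omega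
        rw [Polynomial.natDegree_eq_zero] at hP0
        obtain ⟨c, rfl⟩ := hP0
        refine ⟨c + 1, ?_⟩
        simp
      · rw [one_mul]
        refine ((Complex.re_le_norm _).trans (hC T hT)).trans (le_of_eq ?_)
        rw [Polynomial.natDegree_X]
        norm_num
    tfae_have 3 → 1 := fun h => part2 hA h
    tfae_finish
  · tfae_have 1 → 2 := by
      intro h
      apply part3
      intro ε hε
      rw [zero_add]
      exact h ε hε
    tfae_have 2 → 3 := by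
      rintro ⟨Φ, hΦ, hP, m, hm⟩
      obtain ⟨C, hC⟩ := part4 hΦ.1 hm
      refine ⟨Φ, hΦ.tame, hP, 1, C + ‖Φ 1‖, fun T hT => ?_⟩
      have e1 : ∫ t in (0 : ℝ)..T, Φ (riemannZeta (1 / 2 + t * I)) = Err Φ T + T * Φ 1 := by
        unfold Err
        ring
      rw [e1, Real.rpow_one]
      refine (norm_add_le _ _).trans ?_
      rw [norm_mul, Complex.norm_real, Real.norm_eq_abs, abs_of_nonneg hT]
      have := hC T hT
      have := norm_nonneg (Φ 1)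
      nlinarith
    tfae_have 3 → 1 := by
      rintro ⟨Φ, hΦ, hP, B, C, h⟩ ε hε
      have h2 := part5 hΦ hP h ε hε
      rwa [zero_add] at h2
    tfae_finish

end Pool.Agent.Results.MP_4e5e8a_nt.HolomorphicMoments
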