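import Mathlib
import Pool.Agent.Lib.SampleZeta

/-!
# The Lindelöf exponent can be read off from sample points at the Nyquist rate

Let `0 ≤ A < 1/4` and let `Λ` be a set of real numbers whose gaps near `x` are at most
`(1 + o(1)) · 2π / ((1 - 4A) log x)`.  Then `ζ(1/2 + it) = O(|t|^{A+ε})` for all `ε > 0` holds on
the whole line if and only if it holds at the points `t ∈ Λ`.  For `A = 0` (the Lindelöf
hypothesis) the allowed gap `2π / log x` is the asymptotic distance of consecutive Gram points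
(and the mean distance of consecutive zeros).
-/

namespace Pool.Agent.Variants.MP_4e5e8a_nt.NyquistSampling

open Complex Pool.Agent.Lib.ZetaConv Pool.Agent.Lib.SampleZeta

/-- **Sampling theorem.** Let `0 ≤ A < 1/4` and let `Λ ⊆ ℝ` be such that, for every
`c > 2π / (1 - 4A)`, every interval `[x, x + c / log x]` with `x` large contains a point of `Λ`.
Then `ζ(1/2 + it) = O((1 + |t|)^{A + ε})` for all `ε > 0` on the whole line if and only if this
holds for `t ∈ Λ`. -/
theorem result : ∀ A : ℝ, 0 ≤ A → A < 1 / 4 → ∀ Λ : Set ℝ,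
    (∀ c : ℝ, 2 * Real.pi / (1 - 4 * A) < c →
      ∃ x₀ : ℝ, ∀ x : ℝ, x₀ ≤ x → ∃ l ∈ Λ, x ≤ l ∧ l ≤ x + c / Real.log x) →
    ((∀ ε : ℝ, 0 < ε → ∃ C : ℝ, ∀ t : ℝ,
        ‖riemannZeta (1 / 2 + t * I)‖ ≤ C * (1 + |t|) ^ (A + ε)) ↔
      (∀ ε : ℝ, 0 < ε → ∃ C : ℝ, ∀ l ∈ Λ,
        ‖riemannZeta (1 / 2 + l * I)‖ ≤ C * (1 + |l|) ^ (A + ε))) := by
  intro A hA0 hA Λ hΛ
  constructor
  · intro h ε hε
    obtain ⟨C, hC⟩ := h ε hε
    exact ⟨C, fun l _ => hC l⟩
  · intro h ε hε
    have hline := sampling hA0 hA (Λ := Λ) hΛ (by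
      intro δ hδ
      obtain ⟨C, hC⟩ := h δ hδ
      refine ⟨|C| * 2 ^ (A + δ), 1, fun l hl hl1 => ?_⟩
      have e : (((1 / 2 : ℝ) : ℂ) + l * I) = 1 / 2 + l * I := by push_cast; rfl
      rw [e]
      have hl0 : 0 < l := by linarith
      calc ‖riemannZeta (1 / 2 + l * I)‖ ≤ C * (1 + |l|) ^ (A + δ) := hC l hl
        _ ≤ |C| * (1 + |l|) ^ (A + δ) := by
            apply mul_le_mul_of_nonneg_right (le_abs_self C) (by positivity)
        _ ≤ |C| * (2 * l) ^ (A + δ) := by
            apply mul_le_mul_of_nonneg_left _ (abs_nonneg C)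
            apply Real.rpow_le_rpow (by positivity) _ (by linarith)
            rw [abs_of_pos hl0]; linarith
        _ = |C| * 2 ^ (A + δ) * l ^ (A + δ) := by
            rw [Real.mul_rpow (by norm_num) hl0.le]; ring) ε hε
    exact LineB.line (by linarith) hline

end Pool.Agent.Variants.MP_4e5e8a_nt.NyquistSampling
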