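import Mathlib
import Pool.Agent.LHW.Local
import Pool.Agent.Lib.SampleZeta

/-!
# Large values of the zeta function are enclosed by walls of zeros

If `|ζ(s₀)| > (Im s₀)^ε` at a point `s₀` of the right half of the critical strip, then every
connected set leading from the `δ`-neighbourhood of `s₀` to the line `Re s = 1` (inside the right
half of the critical strip, at heights within `H` of that of `s₀`) has a point with more than
`η log (Im s₀)` zeros of zeta at distance at most `r`.  Consequently the Lindelöf hypothesis holds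
if and only if from each neighbourhood of each point `1/2 + iT` there is such a corridor to the line
`Re s = 1` along which there are only `o(log T)` zeros.
-/

namespace Pool.Agent.Results.MP_4e5e8a_nt.ZeroWalls

open Complex Metric Set

/-- The number of zeros of the Riemann zeta function in the closed disc with centre `s` and
radius `r`, counted with multiplicity (for discs that do not contain the pole `1`). -/
noncomputable def zeroCount (s : ℂ) (r : ℝ) : ℤ :=
  ∑ᶠ u, MeromorphicOn.divisor riemannZeta (closedBall s r) u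

/-- `S` is a connected set in the right half of the critical strip, at heights within `H` of the
height of `s₀`, which meets the closed disc with centre `s₀` and radius `δ` and the line
`Re s = 1`. -/
def Corridor (S : Set ℂ) (s₀ : ℂ) (δ H : ℝ) : Prop :=
  IsConnected S ∧ (∀ s ∈ S, 1 / 2 ≤ s.re ∧ s.re ≤ 1 ∧ |s.im - s₀.im| ≤ H) ∧
    (∃ s ∈ S, ‖s - s₀‖ ≤ δ) ∧ ∃ s ∈ S, s.re = 1

/-- **Walls of zeros.** -/
theorem result :
    (∀ ε : ℝ, 0 < ε → ∃ δ : ℝ, 0 < δ ∧ ∀ H r : ℝ, 0 < r → ∃ η : ℝ, 0 < η ∧ ∃ T₀ : ℝ,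
      ∀ s₀ : ℂ, 1 / 2 ≤ s₀.re → s₀.re ≤ 1 → T₀ ≤ s₀.im →
        ∀ S : Set ℂ, Corridor S s₀ δ H →
          (∀ s ∈ S, (zeroCount s r : ℝ) ≤ η * Real.log s₀.im) →
          ‖riemannZeta s₀‖ ≤ s₀.im ^ ε) ∧
    ((∀ ε : ℝ, 0 < ε → ∃ C : ℝ, ∀ t : ℝ, ‖riemannZeta (1 / 2 + t * I)‖ ≤ C * (1 + |t|) ^ ε) ↔
      ∀ δ : ℝ, 0 < δ → ∃ H r : ℝ, 0 < r ∧ ∀ η : ℝ, 0 < η → ∃ T₀ : ℝ, ∀ T : ℝ, T₀ ≤ T →
        ∃ S : Set ℂ, Corridor S (1 / 2 + T * I) δ H ∧
          ∀ s ∈ S, (zeroCount s r : ℝ) ≤ η * Real.log T) := by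
  have hloc := Pool.Agent.LHW.local_thm
  refine ⟨hloc, ?_, ?_⟩
  · intro hLH δ hδ
    obtain ⟨r, hr, h⟩ := Pool.Agent.LHW.corridors hLH hδ
    refine ⟨0, r, hr, fun η hη => ?_⟩
    obtain ⟨T₀, hT₀⟩ := h η hη
    refine ⟨T₀, fun T hT => ?_⟩
    have him : (1 / 2 + (T : ℂ) * I).im = T := by simp
    have hre : (1 / 2 + (T : ℂ) * I).re = 1 / 2 := by simp
    obtain ⟨S, hS, hS2⟩ := hT₀ (1 / 2 + T * I) (by rw [hre]) (by rw [hre]; norm_num)
      (by rw [him]; exact hT)
    rw [him] at hS2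
    exact ⟨S, hS, hS2⟩
  · intro h ε hε
    obtain ⟨δ, hδ, hloc⟩ := hloc ε hε
    obtain ⟨H, r, hr, h⟩ := h δ hδ
    obtain ⟨η, hη, T₁, hT₁⟩ := hloc H r hr
    obtain ⟨T₂, hT₂⟩ := h η hη
    have hline : Pool.Agent.Lib.ZetaConv.LineB ε := by
      refine ⟨1, max (max T₁ T₂) 1, le_rfl, le_max_right _ _, ?_⟩
      intro t ht
      have ht1 : T₁ ≤ t := le_trans (le_trans (le_max_left _ _) (le_max_left _ _)) ht
      have ht2 : T₂ ≤ t := le_trans (le_trans (le_max_right _ _) (le_max_left _ _)) ht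
      obtain ⟨S, hS, hS2⟩ := hT₂ t ht2
      have him : (1 / 2 + (t : ℂ) * I).im = t := by simp
      have hre : (1 / 2 + (t : ℂ) * I).re = 1 / 2 := by simp
      have h1 := hT₁ (1 / 2 + t * I) (by rw [hre]) (by rw [hre]; norm_num)
        (by rw [him]; exact ht1) S hS (by rw [him]; exact hS2)
      rw [him] at h1
      rw [one_mul]
      convert h1 using 3
      push_cast
      ring
    exact Pool.Agent.Lib.SampleZeta.LineB.line hε.le hline

end Pool.Agent.Results.MP_4e5e8a_nt.ZeroWalls
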